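import Pool.Agent.H38.AQ.Ws

/-!
# [H38 AQ NDA] the count for one value of `ds`, without `i` (complete). File Pool/Agent/H38/AQ/Nda.lean
-/

set_option autoImplicit false

open scoped NumberField Classical
open IsDedekindDomain H38.ML H63.MA H48.KV H48.T3 H38.EN Filter Topology

noncomputable section

namespace H38.AQ

variable {K : IntermediateField ℚ QBar} [NumberField K] {G : Type} [Group G] {ω : K}

private theorem nda_P (hω : IsPrimitiveRoot ω 3) (Q : DP K QBar) (S : Finset (Pl K)) (X : ℝ) :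
    {χ | χ ∈ H38.MT.Ch K ∧ H38.MT.cf Q S χ ≤ X}.Finite := by
  obtain ⟨C, -, hC⟩ := H38.MT.mt_cnt hω Q S
  refine ((hC (max X 1) (le_max_right _ _)).1).subset ?_
  rintro χ ⟨h1, h2⟩
  exact ⟨h1, h2.trans (le_max_left _ _)⟩

/-- the count for one value of `ds`, if `K` contains the cube roots of unity -/
theorem nda (hω : IsPrimitiveRoot ω 3) (k : KV G) (S : Finset (Pl K)) (Q : DP K QBar)
    (hF : H67.AQ.FBS k Q S)
    (h1 : H57.LI.LI1 K QBar (mS S)) (hl : H57.LI.LI2 K QBar (mS S))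
    (ds : (Gal(QBar/K) →* G) → ℕ) (hds : LocInv Q S ds) :
    (∃ Df : Finset ℕ, ∀ φ : Gal(QBar/K) →* G, FT φ → Function.Surjective φ → ds φ ∈ Df) ∧
    ∀ d : ℕ, (∀ X : ℝ, (ND k Q S ds d X).Finite) ∧ ∃ L : ℝ, Tendsto (fun X : ℝ =>
      ((ND k Q S ds d X).ncard : ℝ) / (X * Real.log X ^ 2)) atTop (𝓝 L) := by
  obtain ⟨hDf, C₀, W', hC₀, hW0', hWi', -, hfb⟩ := hF ds hds
  refine ⟨hDf, fun d => ?_⟩
  obtain ⟨W, hWW⟩ : ∃ W, W = W' d := ⟨_, rfl⟩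
  have hW0 : ∀ χ, 0 ≤ W χ ∧ W χ ≤ C₀ := fun χ => by rw [hWW]; exact hW0' d χ
  have hWi : ∀ χ ∈ H38.MT.Ch K, ∀ χ' ∈ H38.MT.Ch K, Teq S Q χ χ' → W χ = W χ' := by
    rw [hWW]
    exact hWi' d
  have hZ : ∀ χ : Gal(QBar/K) →* Multiplicative (ZMod 3), ∃ Z : Finset (H57.LI.AP K QBar (mS S)),
      χ ∈ H38.MT.Ch K → (∀ x ∈ Z, x.F = FX χ) ∧ (Z.card : ℝ) ≤ C₀ * selg (FX χ) ∧
        ∀ Y : ℝ, 1 ≤ Y → (Fib k Q S ds χ d Y).Finite ∧
          |((Fib k Q S ds χ d Y).ncard : ℝ) - W χ * H38.MT.mq Q S χ Y| ≤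
            C₀ + C₀ * ∑ x ∈ Z, |∑ q ∈ IN K Y, x.lq q| ∧
          ((Fib k Q S ds χ d Y).ncard : ℝ) ≤ C₀ * selg (FX χ) * ∑ q ∈ AF K Y, (3 : ℝ) ^ q.card := by
    intro χ
    by_cases hχ : χ ∈ H38.MT.Ch K
    · obtain ⟨Z, hZ⟩ := hfb d χ hχ
      rw [hWW]
      exact ⟨Z, fun _ => hZ⟩
    · exact ⟨∅, fun h => absurd h hχ⟩
  choose Z hZ using hZ
  have hP := nda_P hω Q S
  have hcf1 : ∀ χ, 1 ≤ H38.MT.cf Q S χ := fun χ => one_le_nr _
  obtain ⟨C₁, δ, hC₁, hδ0, hδ1, hsm⟩ := ws hω Q S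
  obtain ⟨C₂, A, hC₂, hdd⟩ := ddx hω Q S
  obtain ⟨C₃, hC₃, hlq⟩ := lqt K QBar
  obtain ⟨C₄', hC₄', haf⟩ := af3 K
  obtain ⟨C₄, hC₄⟩ : ∃ C₄ : ℝ, C₄ = C₀ * C₄' := ⟨_, rfl⟩
  obtain ⟨C₅, hC₅, hmu⟩ := mup Q S
  obtain ⟨C₆, A', δ', hC₆, hδ'0, hδ'1, hli⟩ := h1
  obtain ⟨C, hC⟩ : ∃ C : ℝ, C = C₀ + C₁ + C₂ + C₃ + (C₄ + C₀ * C₅) := ⟨_, rfl⟩
  have h05 : 0 < C₀ * C₅ := mul_pos (by linarith) (by linarith)
  have h04 : 0 < C₄ := by
    rw [hC₄]
    exact mul_pos (by linarith) (by linarith)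
  have hCC₀ : C₀ ≤ C := by rw [hC]; linarith
  have hCC₁ : C₁ ≤ C := by rw [hC]; linarith
  have hCC₂ : C₂ ≤ C := by rw [hC]; linarith
  have hCC₃ : C₃ ≤ C := by rw [hC]; linarith
  have hCC₄ : C₄ + C₀ * C₅ ≤ C := by rw [hC]; linarith
  have hlogn : ∀ Y : ℝ, 1 ≤ Y → 0 ≤ Real.log Y := fun Y hY => Real.log_nonneg hY
  obtain ⟨e, heP, hec, heE⟩ : ∃ e : ED (Gal(QBar/K) →* Multiplicative (ZMod 3))
      (H57.LI.AP K QBar (mS S)), e.P = H38.MT.Ch K ∧ e.c = H38.MT.cf Q S ∧ e.E = fun χ Y =>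
        |((Fib k Q S ds χ d Y).ncard : ℝ) - W χ * H38.MT.mq Q S χ Y| := by
    refine ⟨{
      P := H38.MT.Ch K
      c := H38.MT.cf Q S
      s := fun χ => (selg (FX χ) : ℝ)
      Z := Z
      D := fun x => x.D
      F := fun x Y => |∑ q ∈ IN K Y, x.lq q|
      E := fun χ Y => |((Fib k Q S ds χ d Y).ncard : ℝ) - W χ * H38.MT.mq Q S χ Y|
      C := C
      δ := δ
      A := A
      C1 := by linarith
      δ0 := hδ0
      δ1 := hδ1
      c1 := fun χ _ => hcf1 χ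
      s1 := fun χ hχ => by exact_mod_cast H38.AQ.selg_pos χ hχ
      fin := hP
      sm := ?_
      Zc := ?_
      Zm := ?_
      Dc := ?_
      F0 := fun x Y => abs_nonneg _
      FT := ?_
      F1 := ?_
      F2 := ?_
      E0 := fun χ Y => abs_nonneg _
      E1 := ?_
      E2 := ?_ }, rfl, rfl, rfl⟩
    · intro R hR T hT
      have h2' : ((2 : ℕ) : ℝ) - δ = 2 - δ := by norm_num
      have h3' := (hsm R hR).2 T hT
      rw [h2'] at h3'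
      refine h3'.trans ?_
      have h3 : 0 ≤ (1 + Real.log R) ^ (2 - δ) :=
        Real.rpow_nonneg (by linarith [hlogn R hR]) _
      exact mul_le_mul_of_nonneg_right (mul_le_mul_of_nonneg_right hCC₁ (by linarith)) h3
    · intro χ hχ
      exact (hZ χ hχ).2.1.trans (mul_le_mul_of_nonneg_right hCC₀ (Nat.cast_nonneg _))
    · intro x T hT
      exact mul3 x.F T fun χ hχ => ⟨(hT χ hχ).1, (hZ χ (hT χ hχ).1).1 x (hT χ hχ).2⟩
    · intro χ hχ x hx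
      have h3 := hdd χ hχ x.F x.nf ((hZ χ hχ).1 x hx)
      exact h3.trans (mul_le_mul_of_nonneg_right hCC₂ (pow_nonneg (by linarith [hcf1 χ]) _))
    · intro x Y hY
      refine (hlq (mS S) x Y hY).trans ?_
      exact mul_le_mul_of_nonneg_right (mul_le_mul_of_nonneg_right hCC₃ (by linarith)) (sq_nonneg _)
    · intro x
      refine ⟨C₆ * x.D ^ A', fun Y hY => (hli x Y hY).trans ?_⟩
      have hD : 0 ≤ x.D := abs_nonneg _
      refine mul_le_mul_of_nonneg_left ?_ (mul_nonneg (by linarith) (pow_nonneg hD _))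
      calc Y ^ (1 - δ') ≤ Y ^ (1 : ℝ) := Real.rpow_le_rpow_of_exponent_le hY (by linarith)
        _ = Y := Real.rpow_one Y
    · intro A₁ B ε hε
      exact hl A₁ B ε hε
    · intro χ hχ Y hY
      refine (((hZ χ hχ).2.2 Y hY).2.1).trans ?_
      have h3 : 0 ≤ ∑ x ∈ Z χ, |∑ q ∈ IN K Y, x.lq q| := Finset.sum_nonneg fun _ _ => abs_nonneg _
      exact add_le_add hCC₀ (mul_le_mul_of_nonneg_right hCC₀ h3)
    · intro χ hχ Y hY
      have h3 : ((Fib k Q S ds χ d Y).ncard : ℝ) ≤ C₄ * selg (FX χ) * Y * (1 + Real.log Y) ^ 2 := by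
        refine (((hZ χ hχ).2.2 Y hY).2.2).trans ?_
        calc C₀ * (selg (FX χ) : ℝ) * ∑ q ∈ AF K Y, (3 : ℝ) ^ q.card
            ≤ C₀ * (selg (FX χ) : ℝ) * (C₄' * Y * (1 + Real.log Y) ^ 2) :=
              mul_le_mul_of_nonneg_left (haf Y hY) (mul_nonneg (by linarith) (Nat.cast_nonneg _))
          _ = C₄ * selg (FX χ) * Y * (1 + Real.log Y) ^ 2 := by
              rw [hC₄]
              ring
      obtain ⟨h4, h5⟩ := hmu χ Y hY
      obtain ⟨h6, h7⟩ := hW0 χ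
      have h8 : (1 : ℝ) ≤ selg (FX χ) := by exact_mod_cast H38.AQ.selg_pos χ hχ
      have hP0 : 0 ≤ Y * (1 + Real.log Y) ^ 2 := mul_nonneg (by linarith) (sq_nonneg _)
      have h9 : |((Fib k Q S ds χ d Y).ncard : ℝ) - W χ * H38.MT.mq Q S χ Y| ≤
          ((Fib k Q S ds χ d Y).ncard : ℝ) + W χ * H38.MT.mq Q S χ Y := by
        rw [abs_le]
        have h10 : 0 ≤ W χ * H38.MT.mq Q S χ Y := mul_nonneg h6 h4
        have h11 : (0 : ℝ) ≤ ((Fib k Q S ds χ d Y).ncard : ℝ) := Nat.cast_nonneg _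
        constructor <;> linarith
      have h12 : W χ * H38.MT.mq Q S χ Y ≤ C₀ * (C₅ * Y * (1 + Real.log Y) ^ 2) :=
        mul_le_mul h7 h5 h4 (by linarith)
      calc |((Fib k Q S ds χ d Y).ncard : ℝ) - W χ * H38.MT.mq Q S χ Y|
          ≤ C₄ * selg (FX χ) * Y * (1 + Real.log Y) ^ 2 + C₀ * (C₅ * Y * (1 + Real.log Y) ^ 2) := by
            linarith
        _ = (C₄ * selg (FX χ)) * (Y * (1 + Real.log Y) ^ 2) +
            (C₀ * C₅ * 1) * (Y * (1 + Real.log Y) ^ 2) := by ring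
        _ ≤ (C₄ * selg (FX χ)) * (Y * (1 + Real.log Y) ^ 2) +
            (C₀ * C₅ * selg (FX χ)) * (Y * (1 + Real.log Y) ^ 2) := by
            gcongr
        _ = (C₄ + C₀ * C₅) * (selg (FX χ) * (Y * (1 + Real.log Y) ^ 2)) := by ring
        _ ≤ C * (selg (FX χ) * (Y * (1 + Real.log Y) ^ 2)) :=
            mul_le_mul_of_nonneg_right hCC₄ (mul_nonneg (Nat.cast_nonneg _) hP0)
        _ = C * selg (FX χ) * Y * (1 + Real.log Y) ^ 2 := by ring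
  have herr := err e
  have hfinF : ∀ χ ∈ H38.MT.Ch K, ∀ Y : ℝ, 1 ≤ Y → (Fib k Q S ds χ d Y).Finite :=
    fun χ hχ Y hY => ((hZ χ hχ).2.2 Y hY).1
  have hnd := nds k Q S ds d hfinF hP
  refine ⟨fun X => (hnd X).1, ?_⟩
  obtain ⟨L, hL⟩ := mai hω Q S hP W hWi
  refine ⟨L, ?_⟩
  have hsum : ∀ X : ℝ, ∑ i ∈ (e.fin X).toFinset, e.E i (X / e.c i) =
      ∑ χ ∈ (hP X).toFinset, |((Fib k Q S ds χ d (X / H38.MT.cf Q S χ)).ncard : ℝ) -
        W χ * H38.MT.mq Q S χ (X / H38.MT.cf Q S χ)| := by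
    intro X
    have h3 : (e.fin X).toFinset = (hP X).toFinset := by
      ext χ
      rw [Set.Finite.mem_toFinset, Set.Finite.mem_toFinset, heP, hec]
    rw [h3, hec, heE]
  have h0 : Tendsto (fun X : ℝ => (((ND k Q S ds d X).ncard : ℝ) - ∑ χ ∈ (hP X).toFinset,
      W χ * H38.MT.mq Q S χ (X / H38.MT.cf Q S χ)) / (X * Real.log X ^ 2)) atTop (𝓝 0) := by
    refine squeeze_zero_norm' ?_ herr
    filter_upwards [eventually_gt_atTop (1 : ℝ)] with X hX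
    have hP0 : 0 < X * Real.log X ^ 2 := mul_pos (by linarith) (pow_pos (Real.log_pos hX) 2)
    rw [Real.norm_eq_abs, abs_div, abs_of_pos hP0]
    refine (div_le_div_iff_of_pos_right hP0).2 ?_
    rw [hsum X, (hnd X).2, Nat.cast_sum, ← Finset.sum_sub_distrib]
    exact Finset.abs_sum_le_sum_abs _ _
  have h3 := h0.add hL
  rw [zero_add] at h3
  refine h3.congr fun X => ?_
  rw [← add_div]
  congr 1
  ring

end H38.AQ
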