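import Pool.Agent.H48.KV.FinB
import Pool.Agent.H48.T3.Cls
import Pool.Agent.H63.MA.ClFin
import Pool.Agent.H38.MT.Defs

/-!
# [H38 AQ SEL] finiteness of the Selmer group for every number field (complete). File Pool/Agent/H38/AQ/Sel.lean
-/

set_option autoImplicit false

open scoped NumberField Classical
open IsDedekindDomain H38.ML H63.MA H48.KV

noncomputable section

namespace H38.AQ

private theorem se_uo {K : Type} [Field K] [NumberField K] {p : ℕ} (hp : p.Prime) (S0 : Finset (Pl K))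
    (hcl : ClOne S0) (x : Kˣ) (h : ∀ v, v ∉ S0 → (p : ℤ) ∣ ord v x) :
    ∃ u y : Kˣ, TUnit S0 u ∧ x = u * y ^ p := by
  have hgex : ∀ v : Pl K, ∃ x : Kˣ, v ∉ S0 → ord v x = 1 ∧ ∀ w, w ∉ S0 → w ≠ v → ord w x = 0 := by
    intro v
    by_cases hv : v ∈ S0
    · exact ⟨1, fun h => absurd hv h⟩
    · obtain ⟨x, hx⟩ := hcl v hv
      exact ⟨x, fun _ => hx⟩
  choose g hg using hgex
  have hfin := finite_ord x
  let F : Finset (Pl K) := hfin.toFinset.filter (fun v => v ∉ S0)
  let y : Kˣ := ∏ v ∈ F, g v ^ (ord v x / p)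
  have hy : ∀ w, w ∉ S0 → ord w y = ord w x / p := by
    intro w hw
    have h1 : ord w y = ∑ v ∈ F, (ord v x / p) * ord w (g v) := by
      rw [ord_prod]
      exact Finset.sum_congr rfl fun v _ => ord_zpow w (g v) _
    rw [h1]
    by_cases hwF : w ∈ F
    · rw [Finset.sum_eq_single w]
      · rw [(hg w hw).1, mul_one]
      · intro v hv hvw
        rw [(hg v (Finset.mem_filter.1 hv).2).2 w hw hvw.symm, mul_zero]
      · intro h2
        exact absurd hwF h2
    · have h2 : ord w x = 0 := by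
        by_contra h3
        exact hwF (Finset.mem_filter.2 ⟨hfin.mem_toFinset.2 h3, hw⟩)
      rw [h2, Int.zero_ediv]
      apply Finset.sum_eq_zero
      intro v hv
      have h3 : w ≠ v := by
        rintro rfl
        exact hwF hv
      rw [(hg v (Finset.mem_filter.1 hv).2).2 w hw h3, mul_zero]
  refine ⟨x * (y ^ p)⁻¹, y, ?_, ?_⟩
  · intro w hw
    rw [ord_mul, ord_inv, ord_pow, hy w hw]
    obtain ⟨k, hk⟩ := h w hw
    have hp0 : (p : ℤ) ≠ 0 := by exact_mod_cast hp.ne_zero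
    rw [hk, Int.mul_ediv_cancel_left _ hp0]
    ring
  · rw [inv_mul_cancel_right]

/-- the Selmer group is finite, for every number field -/
theorem sel_all (K : IntermediateField ℚ QBar) [NumberField K] (F : IntermediateField K QBar)
    [NumberField F] :
    Finite (Quot fun a b : {a : Fˣ // H38.WM.Sel K F a} => ∃ c : Fˣ, a.1 = b.1 * c ^ 2) := by
  obtain ⟨T, hT⟩ := exists_clone F
  obtain ⟨U, -, hU⟩ := unit_reps (K := F) Nat.prime_two T
  have hex : ∀ a : {a : Fˣ // H38.WM.Sel K F a}, ∃ u : U, ∃ y : Fˣ, a.1 = u.1 * y ^ 2 := by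
    rintro ⟨a, ha⟩
    obtain ⟨u, y, hu, hx⟩ := se_uo Nat.prime_two T hT a fun v _ => by
      have h1 := ha.even v
      rw [even_iff_two_dvd] at h1
      exact_mod_cast h1
    obtain ⟨u', hu', y', hy'⟩ := hU u hu
    refine ⟨⟨u', hu'⟩, y' * y, ?_⟩
    change a = u' * (y' * y) ^ 2
    rw [hx, hy', mul_assoc, mul_pow]
  choose f y hf using hex
  refine Finite.of_injective (fun q : Quot fun a b : {a : Fˣ // H38.WM.Sel K F a} =>
    ∃ c : Fˣ, a.1 = b.1 * c ^ 2 => f q.out) ?_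
  intro q q' hqq
  have hqq' : f q.out = f q'.out := hqq
  rw [← Quot.out_eq q, ← Quot.out_eq q']
  refine Quot.sound ⟨y q.out * (y q'.out)⁻¹, ?_⟩
  rw [hf q.out, hf q'.out, hqq', mul_assoc, ← mul_pow, mul_comm (y q.out), mul_inv_cancel_left]

/-- `selg (FX χ) ≥ 1`, for every number field -/
theorem selg_pos {K : IntermediateField ℚ QBar} [NumberField K]
    (χ : Gal(QBar/K) →* Multiplicative (ZMod 3)) (hχ : χ ∈ H38.MT.Ch K) : 1 ≤ selg (FX χ) := by
  obtain ⟨c, hc⟩ := H48.T3.cub_ex χ hχ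
  rw [← hc, selg_fd]
  have hfin := sel_all K c.F
  have hone : H38.WM.Sel K c.F 1 := by
    refine ⟨?_, fun P => ?_⟩
    · rw [Units.val_one, map_one]
      exact ⟨1, (one_mul 1).symm⟩
    · rw [ord_one]
      exact ⟨0, rfl⟩
  exact Nat.card_pos_iff.2 ⟨⟨Quot.mk _ ⟨1, hone⟩⟩, hfin⟩

end H38.AQ
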